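import Pool.Agent.R902.Q2.Main

/-!
MP_7f2dba_nt, question Q2: the leading 3-adic digit of `S_m(3^a) / 3^a`.
-/

namespace Pool.Agent.Results.MP_7f2dba_nt.LeadingDigit

open Finset Pool.Agent.R902.Alpha Pool.Agent.R902.Norm3 Pool.Agent.R902.Q2

/-- `S_m(n) = ∑_{0 ≤ k < n} (-1)^k C(n-1,k) C(2k,k) m^{-k}` -/
def S (m : ℤ) (n : ℕ) : ℚ :=
  ∑ k ∈ range n, (-1) ^ k * ((n - 1).choose k : ℚ) * ((2 * k).choose k : ℚ) / (m : ℚ) ^ k

/-- the 3-adic valuation, with value `⊤` at `0` -/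
noncomputable def nu (x : ℚ) : WithTop ℤ := if x = 0 then ⊤ else ((padicValRat 3 x : ℤ) : WithTop ℤ)

/-- `x ≡ y (mod 3^e)` -/
def Cong (e : ℕ) (x y : ℚ) : Prop := ((e : ℤ) : WithTop ℤ) ≤ nu (x - y)

theorem S_eq (m : ℤ) (hm : m ≠ 0) (n : ℕ) (hn : 1 ≤ n) :
    S m n = ∑ i ∈ range n, al (n - 1 - i) * al i * (((m : ℚ) - 4) / m) ^ i := by
  have hm' : (m : ℚ) ≠ 0 := by exact_mod_cast hm
  have h := L_eq_R (m : ℚ) hm' (n - 1)
  rw [L, R, Nat.sub_add_cancel hn] at h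
  exact h

theorem cong_of (e : ℕ) (x y : ℚ) (h : N (x - y) ≤ 1 / 3 ^ e) : Cong e x y := by
  unfold Cong nu
  split_ifs with h0
  · exact le_top
  · rw [N, padicNorm.eq_zpow_of_nonzero h0] at h
    have h3 : ((3 : ℕ) : ℚ) = 3 := by norm_num
    have he : (1 : ℚ) / 3 ^ e = (3 : ℚ) ^ (-(e : ℤ)) := by
      rw [zpow_neg, zpow_natCast, one_div]
    rw [h3, he] at h
    have h1 := (zpow_le_zpow_iff_right₀ (by norm_num : (1 : ℚ) < 3)).1 h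
    exact WithTop.coe_le_coe.2 (by omega)

/-- **Q2.** (a) For every integer `m ≡ 1 (mod 3)`, `m ≠ 1`, and every `a > ν₃(m - 1)`,
`3^{-a} S_m(3^a) ≡ -(m-1)/3 (mod 3^{ν₃(m-1)})`; (b) for every `a ≥ 2`,
`S_1(3^a) ≡ -3^{2a-1} (mod 3^{2a})`. -/
theorem result :
    (∀ m : ℤ, m % 3 = 1 → m ≠ 1 → ∀ a : ℕ, padicValInt 3 (m - 1) < a →
      Cong (padicValInt 3 (m - 1)) (S m (3 ^ a) / 3 ^ a) (-((m : ℚ) - 1) / 3)) ∧
    (∀ a : ℕ, 2 ≤ a → Cong (2 * a) (S 1 (3 ^ a)) (-3 ^ (2 * a - 1))) := by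
  refine ⟨fun m hm hm1 a hav => ?_, fun a ha => ?_⟩
  · obtain ⟨k, hk⟩ : ∃ k, k = padicValInt 3 (m - 1) := ⟨_, rfl⟩
    have hm0 : m ≠ 0 := by rintro rfl; norm_num at hm
    have hk1 : 1 ≤ k := by
      have h3 : (3 : ℤ) ^ 1 ∣ m - 1 := by rw [pow_one]; omega
      have := (padicValInt_dvd_iff 1 (m - 1)).1 (by exact_mod_cast h3)
      rcases this with h | h
      · omega
      · omega
    have hkm : (3 : ℤ) ^ k ∣ m - 1 := by rw [hk]; exact padicValInt_dvd (m - 1)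
    rw [← hk] at hav ⊢
    apply cong_of
    have hn1 : 1 ≤ 3 ^ a := Nat.one_le_pow _ _ (by norm_num)
    have h := main (3 ^ a) a k (by omega) rfl (by omega) m hm hkm
    rw [← S_eq m hm0 (3 ^ a) hn1] at h
    push_cast at h
    have e : S m (3 ^ a) / 3 ^ a - -((m : ℚ) - 1) / 3
        = (S m (3 ^ a) / 3 ^ a + ((m : ℚ) - 1) / 3 + 3 ^ a / 3) - 3 ^ (a - 1) := by
      obtain ⟨b, rfl⟩ : ∃ b, a = b + 1 := ⟨a - 1, by omega⟩
      rw [Nat.add_sub_cancel, pow_succ]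
      ring
    rw [e]
    refine N_sub h ?_
    rw [N_pow, N_three, one_div_pow]
    gcongr
    · norm_num
    · omega
  · apply cong_of
    have hn1 : 1 ≤ 3 ^ a := Nat.one_le_pow _ _ (by norm_num)
    have h := main (3 ^ a) a a ha rfl le_rfl 1 (by norm_num) (by simp)
    rw [← S_eq 1 (by norm_num) (3 ^ a) hn1] at h
    push_cast at h
    have e : S 1 (3 ^ a) - -3 ^ (2 * a - 1)
        = 3 ^ a * (S 1 (3 ^ a) / 3 ^ a + ((1 : ℚ) - 1) / 3 + 3 ^ a / 3) := by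
      obtain ⟨b, rfl⟩ : ∃ b, a = b + 1 := ⟨a - 1, by omega⟩
      rw [show 2 * (b + 1) - 1 = (b + 1) + b by omega, pow_add]
      have : (3 : ℚ) ^ (b + 1) ≠ 0 := by positivity
      field_simp
      ring
    rw [e, N_mul, N_pow, N_three]
    calc (1 / 3 : ℚ) ^ a * N (S 1 (3 ^ a) / 3 ^ a + ((1 : ℚ) - 1) / 3 + 3 ^ a / 3)
        ≤ (1 / 3) ^ a * (1 / 3 ^ a) := by gcongr
      _ = 1 / 3 ^ (2 * a) := by
          rw [two_mul, pow_add, one_div_pow]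
          field_simp

end Pool.Agent.Results.MP_7f2dba_nt.LeadingDigit
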