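import Mathlib

/-!
# 3-adic valuations of `∑_{k<n} (-1)^k C(n-1,k) C(2k,k) m^{-k}`

`m^{n-1} S_m(n)` is the general central trinomial coefficient `[x^{n-1}] ((m-4) x + (1+x)^2)^{n-1}`,
which is compared with the case `m = 1`; for `m = 1` one uses
`∑_k (-1)^k C(N,k) C(2k,k) = ∑_j (C(N,3j+1)² - C(N,3j)²)` for `N ≡ 2 (mod 3)`.
-/

set_option autoImplicit false

namespace Pool.Agent.Results.MP_7f2dba_nt.ValuationBound

open Finset Polynomial

/-- integer version of the sum: `m^n ∑_{k ≤ n} (-1)^k C(n,k) C(2k,k) m^{-k}` -/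
def N (m : ℤ) (n : ℕ) : ℤ :=
  ∑ k ∈ range (n + 1), (-1) ^ k * (n.choose k : ℤ) * ((2 * k).choose k : ℤ) * m ^ (n - k)

lemma coeff_expand (c e : ℤ) (n : ℕ) :
    ((C c * X + C e * (1 + X) ^ 2) ^ n : ℤ[X]).coeff n
      = ∑ k ∈ range (n + 1), e ^ k * (n.choose k : ℤ) * ((2 * k).choose k : ℤ) * c ^ (n - k) := by
  rw [add_comm (C c * X), add_pow, finsetSum_coeff]
  apply sum_congr rfl
  intro k hk
  have hk' : k ≤ n := by have := mem_range.mp hk; omega
  have e1 : (C e * (1 + X : ℤ[X]) ^ 2) ^ k * (C c * X) ^ (n - k) * ((n.choose k : ℕ) : ℤ[X])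
      = C (e ^ k * c ^ (n - k) * (n.choose k : ℤ)) * ((1 + X) ^ (2 * k) * X ^ (n - k)) := by
    rw [mul_pow, mul_pow, ← pow_mul]
    simp only [map_mul, map_pow, map_natCast]
    ring
  rw [e1, coeff_C_mul, coeff_mul_X_pow', if_pos (by omega), coeff_one_add_X_pow,
    show n - (n - k) = k by omega]
  ring

lemma N_eq (m : ℤ) (n : ℕ) :
    N m n = ∑ k ∈ range (n + 1), (n.choose k : ℤ) * ((2 * k).choose k : ℤ) * (m - 4) ^ (n - k) := by
  have h1 : N m n = ((C m * X + C (-1) * (1 + X) ^ 2) ^ n : ℤ[X]).coeff n := by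
    rw [coeff_expand]; rfl
  have h2 : ((C m * X + C (-1) * (1 + X) ^ 2) ^ n : ℤ[X]).comp (C (-1) * X)
      = C ((-1) ^ n) * (C (m - 4) * X + C 1 * (1 + X) ^ 2) ^ n := by
    simp only [pow_comp, add_comp, mul_comp, C_comp, X_comp, one_comp]
    rw [C_pow, ← mul_pow]
    congr 1
    simp only [map_sub, map_neg, map_one]
    rw [show (C (4 : ℤ) : ℤ[X]) = 4 from rfl]
    ring
  have h3 := congrArg (fun p : ℤ[X] => p.coeff n) h2
  simp only [comp_C_mul_X_coeff, coeff_C_mul] at h3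
  rw [coeff_expand (m - 4) 1 n] at h3
  have h4 : ((-1 : ℤ) ^ n) * (-1) ^ n = 1 := by rw [← mul_pow]; simp
  rw [h1]
  have h5 := congrArg (fun x => x * (-1 : ℤ) ^ n) h3
  beta_reduce at h5
  rw [mul_assoc, h4, mul_one] at h5
  rw [h5, mul_comm ((-1 : ℤ) ^ n) _, mul_assoc, h4, mul_one]
  apply sum_congr rfl
  intro k _
  ring

/-- Kummer: if `3^a ∣ k+s+1` then `3^a ∣ 3^s C(2k,k)` -/
lemma three_pow_dvd (a k s : ℕ) (h : 3 ^ a ∣ k + s + 1) : 3 ^ a ∣ 3 ^ s * (2 * k).choose k := by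
  rcases le_or_gt a s with has | has
  · exact Dvd.dvd.mul_right (pow_dvd_pow 3 has) _
  -- choose t with s < 3^t, t ≤ s, t ≤ a
  obtain ⟨t, hts, hst⟩ : ∃ t, t ≤ s ∧ s < 3 ^ t := by
    rcases Nat.eq_zero_or_pos s with rfl | hs
    · exact ⟨0, le_refl _, by norm_num⟩
    · refine ⟨s, le_refl _, Nat.lt_pow_self (by norm_num)⟩
  have key : ∃ t, t ≤ s ∧ s + 1 ≤ 3 ^ t := ⟨t, hts, hst⟩
  -- use t = s itself is too weak? we only need ν(C(2k,k)) ≥ a - s
  have hfac : a - s ≤ ((2 * k).choose k).factorization 3 := by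
    rw [show 2 * k = k + k by ring,
      Nat.factorization_choose' (b := max (a + 1) (Nat.log 3 (k + k) + 1)) Nat.prime_three (by simp)]
    have hsub : Ico (s + 1) (a + 1) ⊆
        {i ∈ Ico 1 (max (a + 1) (Nat.log 3 (k + k) + 1)) | 3 ^ i ≤ k % 3 ^ i + k % 3 ^ i} := by
      intro u hu
      rw [Finset.mem_Ico] at hu
      rw [Finset.mem_filter, Finset.mem_Ico]
      refine ⟨⟨by omega, by have := le_max_left (a + 1) (Nat.log 3 (k + k) + 1); omega⟩, ?_⟩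
      obtain ⟨v, rfl⟩ : ∃ v, u = v + 1 := ⟨u - 1, by omega⟩
      have hd : 3 ^ (v + 1) ∣ k + s + 1 := (pow_dvd_pow 3 (by omega)).trans h
      have hs3 : s + 1 ≤ 3 ^ v := by
        have h1 : s < 3 ^ s := Nat.lt_pow_self (by norm_num)
        have h2 : 3 ^ s ≤ 3 ^ v := Nat.pow_le_pow_right (by norm_num) (by omega)
        omega
      have hpos : 0 < 3 ^ v := by positivity
      have hp : 3 ^ (v + 1) = 3 * 3 ^ v := by ring
      have hk := Nat.mod_lt k (show 0 < 3 ^ (v + 1) by positivity)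
      -- k % q = q - (s+1)
      have hm : (k % 3 ^ (v + 1) + (s + 1)) % 3 ^ (v + 1) = 0 := by
        have : (k + s + 1) % 3 ^ (v + 1) = 0 := Nat.mod_eq_zero_of_dvd hd
        rw [add_assoc] at this
        rwa [Nat.add_mod, Nat.mod_eq_of_lt (show s + 1 < 3 ^ (v + 1) by omega)] at this
      have hge : 3 ^ (v + 1) ≤ k % 3 ^ (v + 1) + (s + 1) := by
        by_contra hlt
        push Not at hlt
        rw [Nat.mod_eq_of_lt hlt] at hm
        omega
      omega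
    have hcard := Finset.card_le_card hsub
    rw [Nat.card_Ico] at hcard
    omega
  have hpos : (2 * k).choose k ≠ 0 := (Nat.choose_pos (by omega)).ne'
  have h2 : 3 ^ (a - s) ∣ (2 * k).choose k :=
    (Nat.prime_three.pow_dvd_iff_le_factorization hpos).mpr hfac
  have h3 : 3 ^ a = 3 ^ s * 3 ^ (a - s) := by rw [← pow_add]; congr 1; omega
  rw [h3]
  exact Nat.mul_dvd_mul_left _ h2

lemma pow_sub_dvd (x y : ℤ) (e : ℕ) (hx : (3 : ℤ) ∣ x) (hy : (3 : ℤ) ∣ y)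
    (h : (3 : ℤ) ^ e ∣ x - y) (s : ℕ) : (3 : ℤ) ^ (e + s) ∣ x ^ (s + 1) - y ^ (s + 1) := by
  induction s with
  | zero => simpa using h
  | succ s ih =>
    have e1 : x ^ (s + 1 + 1) - y ^ (s + 1 + 1) = x * (x ^ (s + 1) - y ^ (s + 1)) + (x - y) * y ^ (s + 1) := by
      ring
    rw [e1]
    apply dvd_add
    · rw [show e + (s + 1) = 1 + (e + s) by ring, pow_add, pow_one]
      exact mul_dvd_mul hx ih
    · rw [pow_add]
      exact mul_dvd_mul h (pow_dvd_pow_of_dvd hy _)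

/-- comparison with `m = 1` -/
theorem compare (m : ℤ) (n a e : ℕ) (ha : (3 : ℕ) ^ a ∣ n + 1) (he : 1 ≤ e)
    (hm : (3 : ℤ) ^ e ∣ m - 1) : (3 : ℤ) ^ (a + e) ∣ 3 * N m n - 3 * N 1 n := by
  have h3m : (3 : ℤ) ∣ m - 1 := (dvd_pow_self 3 (by omega)).trans hm
  rw [N_eq, N_eq, ← mul_sub, ← sum_sub_distrib, mul_sum]
  apply dvd_sum
  intro k hk
  have hk' : k ≤ n := by have := mem_range.mp hk; omega
  obtain ⟨s, hs⟩ : ∃ s, n - k = s := ⟨_, rfl⟩
  rw [hs]
  rcases Nat.eq_zero_or_pos s with rfl | hpos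
  · simp
  · obtain ⟨r, rfl⟩ : ∃ r, s = r + 1 := ⟨s - 1, by omega⟩
    have h1 := pow_sub_dvd (m - 4) (1 - 4) e
      (by obtain ⟨q, hq⟩ := h3m; exact ⟨q - 1, by linarith⟩) ⟨-1, by norm_num⟩
      (by rwa [show m - 4 - (1 - 4) = m - 1 by ring]) r
    obtain ⟨q, hq⟩ := h1
    have h2 := three_pow_dvd a k (r + 1) (by
      rw [show k + (r + 1) + 1 = n + 1 by omega]; exact ha)
    have h2' : ((3 : ℤ) ^ a) ∣ (3 : ℤ) ^ (r + 1) * ((2 * k).choose k : ℤ) := by exact_mod_cast h2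
    obtain ⟨w, hw⟩ := h2'
    refine ⟨w * q * (n.choose k : ℤ), ?_⟩
    have e1 : 3 * ((n.choose k : ℤ) * ((2 * k).choose k : ℤ) * (m - 4) ^ (r + 1)
        - (n.choose k : ℤ) * ((2 * k).choose k : ℤ) * (1 - 4) ^ (r + 1))
        = 3 * (n.choose k : ℤ) * ((2 * k).choose k : ℤ) * ((m - 4) ^ (r + 1) - (1 - 4) ^ (r + 1)) := by
      ring
    rw [e1, hq, pow_add, pow_add]
    have e2 : 3 * (n.choose k : ℤ) * ((2 * k).choose k : ℤ) * (3 ^ e * 3 ^ r * q)
        = (3 ^ (r + 1) * ((2 * k).choose k : ℤ)) * ((n.choose k : ℤ) * 3 ^ e * q) := by ring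
    rw [e2, hw]
    ring

/-! ### The case `m = 1` -/

/-- the ring `ℤ[ω]`, `ω² = -1 - ω` -/
abbrev E := QuadraticAlgebra ℤ (-1) (-1)

/-- the cube root of unity -/
def w : E := ⟨0, 1⟩

lemma w_sq : w ^ 2 = -1 - w := by
  rw [pow_two]
  ext <;> simp [w, QuadraticAlgebra.re_one, QuadraticAlgebra.im_one]

lemma w_cube : w ^ 3 = 1 := by
  have h := w_sq
  have : w ^ 3 = w * w ^ 2 := by ring
  rw [this, h]
  have : w * (-1 - w) = -w - w ^ 2 := by ring
  rw [this, h]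
  ring

lemma N_one_eq (n : ℕ) : ((N 1 n : ℤ) : E)
    = ∑ k ∈ range (n + 1), ((n.choose k : ℤ) : E) ^ 2 * w ^ (n + k) := by
  have h1 : N 1 n = ((C 1 * X + C (-1) * (1 + X) ^ 2) ^ n : ℤ[X]).coeff n := by
    rw [coeff_expand]; rfl
  rw [h1]
  have h2 : (Int.castRingHom E) (((C 1 * X + C (-1) * (1 + X) ^ 2) ^ n : ℤ[X]).coeff n)
      = (((C 1 * X + C (-1) * (1 + X) ^ 2) ^ n : ℤ[X]).map (Int.castRingHom E)).coeff n := by
    rw [coeff_map]
  change (Int.castRingHom E) _ = _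
  rw [h2]
  have h3 : (((C 1 * X + C (-1) * (1 + X) ^ 2) ^ n : ℤ[X]).map (Int.castRingHom E))
      = C ((-1 : E) ^ n) * ((X + C (-w)) ^ n * (X + C (-w ^ 2)) ^ n) := by
    rw [← mul_pow, C_pow, ← mul_pow]
    simp only [Polynomial.map_pow, Polynomial.map_add, Polynomial.map_mul, Polynomial.map_one,
      Polynomial.map_neg, map_X, map_one, map_neg]
    congr 1
    have hw2 : (C w : E[X]) ^ 2 = -1 - C w := by
      rw [← C_pow, w_sq]; simp
    simp only [map_pow]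
    linear_combination (-(X : E[X]) + C w - 1) * hw2
  rw [h3, coeff_C_mul, coeff_mul, mul_sum, Finset.Nat.sum_antidiagonal_eq_sum_range_succ_mk]
  apply sum_congr rfl
  intro k hk
  have hk' : k ≤ n := by have := mem_range.mp hk; omega
  simp only [coeff_X_add_C_pow]
  rw [show n - (n - k) = k by omega, Nat.choose_symm hk']
  have e1 : (-1 : E) ^ n = (-1) ^ k * (-1) ^ (n - k) := by rw [← pow_add]; congr 1; omega
  have e2 : w ^ (n + k) = w ^ (n - k) * (w ^ 2) ^ k := by rw [← pow_mul, ← pow_add]; congr 1; omega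
  rw [e1, e2, neg_pow w (n - k), neg_pow (w ^ 2) k]
  have e3 : ((-1 : E) ^ k) * (-1) ^ k = 1 := by rw [← mul_pow]; simp
  have e4 : ((-1 : E) ^ (n - k)) * (-1) ^ (n - k) = 1 := by rw [← mul_pow]; simp
  push_cast
  linear_combination ((-1 : E) ^ (n - k) * (-1) ^ (n - k) * w ^ (n - k) * (w ^ 2) ^ k * (n.choose k : E) ^ 2) * e3
    + (w ^ (n - k) * (w ^ 2) ^ k * (n.choose k : E) ^ 2) * e4

lemma sum_three (f : ℕ → ℤ) (M : ℕ) :
    ∑ k ∈ range (3 * M), f k = ∑ j ∈ range M, (f (3 * j) + f (3 * j + 1) + f (3 * j + 2)) := by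
  induction M with
  | zero => simp
  | succ M ih =>
    rw [show 3 * (M + 1) = 3 * M + 1 + 1 + 1 by ring, sum_range_succ, sum_range_succ,
      sum_range_succ, ih, sum_range_succ]
    ring

/-- real part as an additive map -/
def reHom : E →+ ℤ where
  toFun := fun z => z.re
  map_zero' := rfl
  map_add' := fun _ _ => rfl

lemma reHom_int_mul (z : ℤ) (u : E) : reHom ((z : E) * u) = z * u.re := by
  change ((z : E) * u).re = z * u.re
  rw [QuadraticAlgebra.re_mul, QuadraticAlgebra.re_intCast, QuadraticAlgebra.im_intCast]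
  simp

lemma w_pow (q r : ℕ) : w ^ (3 * q + r) = w ^ r := by
  rw [pow_add, pow_mul, w_cube, one_pow, one_mul]

lemma N_one_re (M : ℕ) : N 1 (3 * M + 2)
    = ∑ j ∈ range (M + 1), (((3 * M + 2).choose (3 * j + 1) : ℤ) ^ 2
      - ((3 * M + 2).choose (3 * j) : ℤ) ^ 2) := by
  have h := congrArg reHom (N_one_eq (3 * M + 2))
  have h0 : reHom ((N 1 (3 * M + 2) : ℤ) : E) = N 1 (3 * M + 2) := by
    have := reHom_int_mul (N 1 (3 * M + 2)) 1
    rw [mul_one] at this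
    rw [this]
    change _ * (1 : ℤ) = _
    ring
  rw [h0, map_sum] at h
  rw [h]
  have h1 : ∀ k ∈ range (3 * M + 2 + 1), reHom ((((3 * M + 2).choose k : ℤ) : E) ^ 2 * w ^ (3 * M + 2 + k))
      = ((3 * M + 2).choose k : ℤ) ^ 2 * (w ^ (3 * M + 2 + k)).re := by
    intro k _
    rw [← reHom_int_mul]
    push_cast
    rfl
  rw [sum_congr rfl h1, show 3 * M + 2 + 1 = 3 * (M + 1) by ring, sum_three]
  apply sum_congr rfl
  intro j _
  have r0 : (w ^ (3 * M + 2 + 3 * j)).re = -1 := by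
    rw [show 3 * M + 2 + 3 * j = 3 * (M + j) + 2 by ring, w_pow, w_sq]
    rfl
  have r1 : (w ^ (3 * M + 2 + (3 * j + 1))).re = 1 := by
    rw [show 3 * M + 2 + (3 * j + 1) = 3 * (M + j + 1) + 0 by ring, w_pow, pow_zero]
    rfl
  have r2 : (w ^ (3 * M + 2 + (3 * j + 2))).re = 0 := by
    rw [show 3 * M + 2 + (3 * j + 2) = 3 * (M + j + 1) + 1 by ring, w_pow, pow_one]
    rfl
  rw [r0, r1, r2]
  ring

lemma ch_rel (n j : ℕ) : ((j : ℤ) + 1) * (n.choose (j + 1) : ℤ) = ((n : ℤ) - j) * (n.choose j : ℤ) := by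
  rcases le_or_gt j n with h | h
  · have h1 := Nat.choose_succ_right_eq n j
    have h2 : ((n - j : ℕ) : ℤ) = (n : ℤ) - j := by push_cast [h]; ring
    have h3 : (n.choose (j + 1) : ℤ) * ((j : ℤ) + 1) = (n.choose j : ℤ) * ((n - j : ℕ) : ℤ) := by
      exact_mod_cast h1
    rw [h2] at h3
    linarith
  · rw [Nat.choose_eq_zero_of_lt h, Nat.choose_eq_zero_of_lt (by omega)]
    simp

lemma PQ (M j : ℕ) :
    (∏ i ∈ range j, ((3 * (i : ℤ) + 1) * (3 * i + 2))) * ((3 * M + 2).choose (3 * j) : ℤ)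
      = (∏ i ∈ range j, ((3 * (M : ℤ) + 3 - (3 * i + 1)) * (3 * (M : ℤ) + 3 - (3 * i + 2))))
        * (M.choose j : ℤ) := by
  induction j with
  | zero => simp
  | succ j ih =>
    have hj : ((j : ℤ) + 1) ≠ 0 := by positivity
    apply mul_left_cancel₀ hj
    rw [prod_range_succ, prod_range_succ]
    have h1 := ch_rel (3 * M + 2) (3 * j)
    have h2 := ch_rel (3 * M + 2) (3 * j + 1)
    have h3 := ch_rel (3 * M + 2) (3 * j + 2)
    have h4 := ch_rel M j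
    rw [show 3 * j + 2 + 1 = 3 * (j + 1) by ring] at h3
    rw [show 3 * j + 1 + 1 = 3 * j + 2 by ring] at h2
    push_cast at h1 h2 h3 h4
    generalize (∏ i ∈ range j, ((3 * (i : ℤ) + 1) * (3 * i + 2))) = P at *
    generalize (∏ i ∈ range j, ((3 * (M : ℤ) + 3 - (3 * i + 1)) * (3 * (M : ℤ) + 3 - (3 * i + 2)))) = Q at *
    generalize ((3 * M + 2).choose (3 * (j + 1)) : ℤ) = x3 at *
    generalize ((3 * M + 2).choose (3 * j + 2) : ℤ) = x2 at *
    generalize ((3 * M + 2).choose (3 * j + 1) : ℤ) = x1 at *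
    generalize ((3 * M + 2).choose (3 * j) : ℤ) = x0 at *
    generalize (M.choose j : ℤ) = z0 at *
    generalize (M.choose (j + 1) : ℤ) = z1 at *
    have h3' : ((j : ℤ) + 1) * x3 = ((M : ℤ) - j) * x2 := by linarith
    linear_combination (P * (3 * (j : ℤ) + 1) * (3 * j + 2)) * h3'
      + (P * (3 * (j : ℤ) + 1) * ((M : ℤ) - j)) * h2
      + (P * ((M : ℤ) - j) * (3 * (M : ℤ) + 3 - (3 * j + 2))) * h1
      + (((M : ℤ) - j) * (3 * (M : ℤ) + 3 - (3 * j + 1)) * (3 * (M : ℤ) + 3 - (3 * j + 2))) * ih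
      - (Q * (3 * (M : ℤ) + 3 - (3 * j + 1)) * (3 * (M : ℤ) + 3 - (3 * j + 2))) * h4

lemma x_mod_z (M j a : ℕ) (ha : (3 : ℤ) ^ a ∣ 3 * (M : ℤ) + 3) :
    (3 : ℤ) ^ a ∣ ((3 * M + 2).choose (3 * j) : ℤ) - (M.choose j : ℤ) := by
  have h := PQ M j
  set P : ℤ := ∏ i ∈ range j, ((3 * (i : ℤ) + 1) * (3 * i + 2)) with hP
  set Q : ℤ := ∏ i ∈ range j, ((3 * (M : ℤ) + 3 - (3 * i + 1)) * (3 * (M : ℤ) + 3 - (3 * i + 2))) with hQ
  have h1 : (3 : ℤ) ^ a ∣ Q - P := by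
    have h2 : P ≡ Q [ZMOD (3 * (M : ℤ) + 3)] := by
      rw [hP, hQ]
      apply Int.ModEq.prod
      intro i _
      refine Int.modEq_iff_dvd.mpr ⟨3 * (M : ℤ) + 3 - 3 * (2 * i + 1), by ring⟩
    exact ha.trans (Int.modEq_iff_dvd.mp h2)
  have h3 : IsCoprime ((3 : ℤ) ^ a) P := by
    apply IsCoprime.pow_left
    rw [hP]
    apply IsCoprime.prod_right
    intro i _
    apply IsCoprime.mul_right
    · exact ⟨-i, 1, by ring⟩
    · exact ⟨i + 1, -1, by ring⟩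
  apply h3.dvd_of_dvd_mul_left
  have e : P * (((3 * M + 2).choose (3 * j) : ℤ) - (M.choose j : ℤ)) = (Q - P) * (M.choose j : ℤ) := by
    linear_combination h
  rw [e]
  exact Dvd.dvd.mul_right h1 _

lemma vand (t r : ℕ) :
    ∑ j ∈ range (t + r + 1), ((t + r).choose j) ^ 2 * j.choose t
      = (t + r).choose t * (t + 2 * r).choose r := by
  rw [show t + r + 1 = t + (r + 1) by ring, sum_range_add]
  have h1 : ∑ x ∈ range t, ((t + r).choose x) ^ 2 * x.choose t = 0 := by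
    apply sum_eq_zero
    intro x hx
    rw [Nat.choose_eq_zero_of_lt (mem_range.mp hx), mul_zero]
  rw [h1, zero_add, show t + 2 * r = (t + r) + r by ring, Nat.add_choose_eq (t + r) r r, mul_sum,
    Finset.Nat.sum_antidiagonal_eq_sum_range_succ_mk, ← Finset.sum_range_reflect]
  apply sum_congr rfl
  intro i hi
  have hi' : i ≤ r := by have := mem_range.mp hi; omega
  have e1 := Nat.choose_mul (n := t + r) (k := t + (r + 1 - 1 - i)) (s := t) (by omega)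
  rw [show t + r - t = r by omega, show t + (r + 1 - 1 - i) - t = r - i by omega] at e1
  have e2 : (t + r).choose (t + (r + 1 - 1 - i)) = (t + r).choose i := by
    rw [← Nat.choose_symm (show t + (r + 1 - 1 - i) ≤ t + r by omega)]
    congr 1; omega
  rw [pow_two, mul_assoc, e1, e2]
  ring

/-- `3^b ∣ 3^t ∑_j C(M,j)² C(j,t)` when `3^b ∣ M+1`. -/
lemma base (M b t : ℕ) (hb : 3 ^ b ∣ M + 1) :
    (3 : ℤ) ^ b ∣ 3 ^ t * ∑ j ∈ range (M + 1), (M.choose j : ℤ) ^ 2 * (j.choose t : ℤ) := by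
  rcases lt_or_ge M t with h | h
  · rw [sum_eq_zero, mul_zero]
    · exact dvd_zero _
    · intro j hj
      rw [Nat.choose_eq_zero_of_lt (show j < t by have := mem_range.mp hj; omega)]
      simp
  · obtain ⟨r, rfl⟩ := Nat.exists_eq_add_of_le h
    have hv : ∑ j ∈ range (t + r + 1), ((t + r).choose j : ℤ) ^ 2 * (j.choose t : ℤ)
        = ((t + r).choose t : ℤ) * ((t + 2 * r).choose r : ℤ) := by exact_mod_cast vand t r
    rw [hv]
    have h1 := Nat.add_one_mul_choose_eq (t + 2 * r) (t + r)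
    have h2 : (t + 2 * r).choose (t + r) = (t + 2 * r).choose r := by
      rw [← Nat.choose_symm (show t + r ≤ t + 2 * r by omega)]
      congr 1; omega
    rw [h2] at h1
    have h3 : (3 : ℤ) ^ b ∣ ((t : ℤ) + 1) * ((t + 2 * r).choose r : ℤ) := by
      have hb' : (3 : ℤ) ^ b ∣ (t : ℤ) + r + 1 := by exact_mod_cast hb
      refine hb'.trans ⟨2 * ((t + 2 * r).choose r : ℤ) - ((t + 2 * r + 1).choose (t + r + 1) : ℤ), ?_⟩
      have h1' : ((t : ℤ) + 2 * r + 1) * ((t + 2 * r).choose r : ℤ)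
          = ((t + 2 * r + 1).choose (t + r + 1) : ℤ) * ((t : ℤ) + r + 1) := by exact_mod_cast h1
      linear_combination -h1'
    obtain ⟨v, q, hq, hvq⟩ := Nat.exists_eq_pow_mul_and_not_dvd (n := t + 1) (by omega) 3 (by norm_num)
    have hvt : v ≤ t := by
      have h4 : 3 ^ v ≤ t + 1 := by
        rw [hvq]
        exact Nat.le_mul_of_pos_right _ (Nat.pos_of_ne_zero (by rintro rfl; simp at hq))
      have h5 : v < 3 ^ v := Nat.lt_pow_self (by norm_num)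
      omega
    have hcop : IsCoprime ((3 : ℤ) ^ b) (q : ℤ) := by
      apply IsCoprime.pow_left
      have : Nat.Coprime 3 q := (Nat.Prime.coprime_iff_not_dvd Nat.prime_three).mpr hq
      exact_mod_cast Nat.isCoprime_iff_coprime.mpr this
    have hvq' : ((t : ℤ) + 1) = 3 ^ v * q := by exact_mod_cast hvq
    rw [hvq'] at h3
    have h6 : (3 : ℤ) ^ b ∣ 3 ^ v * ((t + 2 * r).choose r : ℤ) := by
      apply hcop.dvd_of_dvd_mul_left
      have e0 : (q : ℤ) * (3 ^ v * ((t + 2 * r).choose r : ℤ)) = 3 ^ v * q * ((t + 2 * r).choose r : ℤ) := by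
        ring
      rw [e0]
      exact h3
    have h7 : (3 : ℤ) ^ t = 3 ^ v * 3 ^ (t - v) := by rw [← pow_add]; congr 1; omega
    rw [h7]
    have e : (3 : ℤ) ^ v * 3 ^ (t - v) * (((t + r).choose t : ℤ) * ((t + 2 * r).choose r : ℤ))
        = (3 ^ v * ((t + 2 * r).choose r : ℤ)) * (3 ^ (t - v) * ((t + r).choose t : ℤ)) := by ring
    rw [e]
    exact Dvd.dvd.mul_right h6 _

lemma weighted (M b : ℕ) (hb : 3 ^ b ∣ M + 1) (l : ℕ) : ∀ t : ℕ,
    (3 : ℤ) ^ b ∣ 3 ^ (l + t) * ∑ j ∈ range (M + 1), (M.choose j : ℤ) ^ 2 * ((j : ℤ) ^ l * (j.choose t : ℤ)) := by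
  induction l with
  | zero =>
    intro t
    simpa using base M b t hb
  | succ l ih =>
    intro t
    have h1 := ih (t + 1)
    have h2 := ih t
    have e : (3 : ℤ) ^ (l + 1 + t) * ∑ j ∈ range (M + 1), (M.choose j : ℤ) ^ 2 * ((j : ℤ) ^ (l + 1) * (j.choose t : ℤ))
        = ((t : ℤ) + 1) * (3 ^ (l + (t + 1)) * ∑ j ∈ range (M + 1), (M.choose j : ℤ) ^ 2 * ((j : ℤ) ^ l * (j.choose (t + 1) : ℤ)))
          + 3 * t * (3 ^ (l + t) * ∑ j ∈ range (M + 1), (M.choose j : ℤ) ^ 2 * ((j : ℤ) ^ l * (j.choose t : ℤ))) := by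
      rw [show l + 1 + t = l + t + 1 by ring, show l + (t + 1) = l + t + 1 by ring, pow_succ]
      have e2 : ∑ j ∈ range (M + 1), (M.choose j : ℤ) ^ 2 * ((j : ℤ) ^ (l + 1) * (j.choose t : ℤ))
          = ((t : ℤ) + 1) * ∑ j ∈ range (M + 1), (M.choose j : ℤ) ^ 2 * ((j : ℤ) ^ l * (j.choose (t + 1) : ℤ))
            + t * ∑ j ∈ range (M + 1), (M.choose j : ℤ) ^ 2 * ((j : ℤ) ^ l * (j.choose t : ℤ)) := by
        rw [mul_sum, mul_sum, ← sum_add_distrib]
        apply sum_congr rfl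
        intro j _
        have h := ch_rel j t
        rw [pow_succ]
        linear_combination (-(M.choose j : ℤ) ^ 2 * (j : ℤ) ^ l) * h
      rw [e2]
      ring
    rw [e]
    exact dvd_add (Dvd.dvd.mul_left h1 _) (Dvd.dvd.mul_left h2 _)

/-- approximate inverse of `3j+1` -/
def vinv (K j : ℕ) : ℤ := ∑ l ∈ range K, (-3 * (j : ℤ)) ^ l

lemma vinv_spec (K j : ℕ) : (3 : ℤ) ^ K ∣ (3 * (j : ℤ) + 1) * vinv K j - 1 := by
  have h := geom_sum_mul (-3 * (j : ℤ)) K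
  refine ⟨-((-j : ℤ) ^ K), ?_⟩
  unfold vinv
  have e : (-3 * (j : ℤ)) ^ K = 3 ^ K * (-j : ℤ) ^ K := by rw [← mul_pow]; congr 1; ring
  rw [e] at h
  linear_combination -h

lemma sum_vinv (M b K : ℕ) (hb : 3 ^ b ∣ M + 1) :
    (3 : ℤ) ^ b ∣ ∑ j ∈ range (M + 1), (M.choose j : ℤ) ^ 2 * vinv K j := by
  unfold vinv
  simp only [mul_sum]
  rw [sum_comm]
  apply dvd_sum
  intro l _
  have h := weighted M b hb l 0
  have e : ∑ j ∈ range (M + 1), (M.choose j : ℤ) ^ 2 * (-3 * (j : ℤ)) ^ l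
      = (-1) ^ l * (3 ^ (l + 0) * ∑ j ∈ range (M + 1), (M.choose j : ℤ) ^ 2 * ((j : ℤ) ^ l * (j.choose 0 : ℤ))) := by
    rw [mul_sum, mul_sum]
    apply sum_congr rfl
    intro j _
    rw [show (-3 * (j : ℤ)) = (-1) * 3 * j by ring, mul_pow, mul_pow]
    simp
    ring
  rw [e]
  exact Dvd.dvd.mul_left h _

/-- the case `m = 1` -/
theorem case_one (n a : ℕ) (ha : 3 ^ a ∣ n + 1) : (3 : ℤ) ^ (2 * a) ∣ 3 * N 1 n := by
  rcases Nat.eq_zero_or_pos a with rfl | hpos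
  · simp
  obtain ⟨b, rfl⟩ : ∃ b, a = b + 1 := ⟨a - 1, by omega⟩
  obtain ⟨M, rfl⟩ : ∃ M, n = 3 * M + 2 := by
    have h3 : 3 ∣ n + 1 := (dvd_pow_self 3 (by omega)).trans ha
    exact ⟨(n + 1) / 3 - 1, by omega⟩
  have hn : (3 : ℤ) ^ (b + 1) ∣ 3 * (M : ℤ) + 3 := by
    have : (3 : ℕ) ^ (b + 1) ∣ 3 * M + 3 := by convert ha using 1
    exact_mod_cast this
  have hb : 3 ^ b ∣ M + 1 := by
    have h1 : 3 * 3 ^ b ∣ 3 * (M + 1) := by
      rw [show 3 * 3 ^ b = 3 ^ (b + 1) by ring, show 3 * (M + 1) = 3 * M + 2 + 1 by ring]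
      exact ha
    exact Nat.dvd_of_mul_dvd_mul_left (by norm_num) h1
  rw [N_one_re]
  set K := 2 * (b + 1) with hK
  set n : ℤ := 3 * (M : ℤ) + 3 with hnd
  have hn2 : (3 : ℤ) ^ K ∣ n * n := by
    rw [hK, two_mul, pow_add]
    exact mul_dvd_mul hn hn
  -- pointwise
  have hpt : ∀ j : ℕ, (3 : ℤ) ^ K ∣ (((3 * M + 2).choose (3 * j + 1) : ℤ) ^ 2
      - ((3 * M + 2).choose (3 * j) : ℤ) ^ 2) + 2 * n * ((M.choose j : ℤ) ^ 2 * vinv K j) := by
    intro j
    have h1 := ch_rel (3 * M + 2) (3 * j)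
    push_cast at h1
    have h2 := vinv_spec K j
    have h3 := x_mod_z M j (b + 1) hn
    obtain ⟨N1, hN1⟩ := hn
    obtain ⟨c1, hc1⟩ := hn2
    obtain ⟨c2, hc2⟩ := h2
    obtain ⟨c3, hc3⟩ := h3
    rw [← hnd] at *
    have h1' : (3 * (j : ℤ) + 1) * ((3 * M + 2).choose (3 * j + 1) : ℤ)
        = (n - (3 * j + 1)) * ((3 * M + 2).choose (3 * j) : ℤ) := by
      rw [h1, hnd]; ring
    have hKK : (3 : ℤ) ^ K = 3 ^ (b + 1) * 3 ^ (b + 1) := by rw [hK, two_mul, pow_add]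
    generalize ((3 * M + 2).choose (3 * j + 1) : ℤ) = y at *
    generalize ((3 * M + 2).choose (3 * j) : ℤ) = x at *
    generalize (M.choose j : ℤ) = z at *
    generalize vinv K j = v at *
    set u : ℤ := 3 * (j : ℤ) + 1 with hu
    -- (y²-x²)u² = n(n-2u)x²
    have h4 : (y ^ 2 - x ^ 2) * u ^ 2 = n * n * x ^ 2 - 2 * n * u * x ^ 2 := by
      linear_combination (u * y + (n - u) * x) * h1'
    have e : y ^ 2 - x ^ 2 + 2 * n * (z ^ 2 * v)
        = v ^ 2 * x ^ 2 * (n * n) - 2 * n * v * x ^ 2 * (u * v - 1)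
          - (u * v - 1) * (u * v + 1) * (y ^ 2 - x ^ 2) - 2 * n * v * (x - z) * (x + z) := by
      linear_combination (v ^ 2) * h4
    rw [e, hc1, hc2]
    have e2 : 2 * n * v * (x - z) * (x + z) = 3 ^ K * (2 * v * (x + z) * N1 * c3) := by
      rw [hc3, hN1, hKK]; ring
    rw [e2]
    refine ⟨v ^ 2 * x ^ 2 * c1 - 2 * n * v * x ^ 2 * c2 - c2 * (u * v + 1) * (y ^ 2 - x ^ 2)
      - 2 * v * (x + z) * N1 * c3, by ring⟩
  have hsum : (3 : ℤ) ^ K ∣ ∑ j ∈ range (M + 1), ((((3 * M + 2).choose (3 * j + 1) : ℤ) ^ 2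
      - ((3 * M + 2).choose (3 * j) : ℤ) ^ 2) + 2 * n * ((M.choose j : ℤ) ^ 2 * vinv K j)) :=
    dvd_sum fun j _ => hpt j
  rw [sum_add_distrib, ← mul_sum] at hsum
  have h5 := sum_vinv M b K hb
  obtain ⟨c, hc⟩ := hsum
  obtain ⟨d, hd⟩ := h5
  obtain ⟨N1, hN1⟩ := hn
  refine ⟨3 * c - 2 * N1 * d, ?_⟩
  have hKK : (3 : ℤ) ^ K = 3 ^ (b + 1) * 3 ^ b * 3 := by
    rw [mul_assoc, ← pow_succ, hK, two_mul, pow_add]
  have e3 : 3 * (2 * n * (3 ^ b * d)) = 3 ^ K * (2 * N1 * d) := by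
    rw [hN1, hKK]; ring
  rw [hd] at hc
  linear_combination 3 * hc - e3

theorem main (m : ℤ) (n a e : ℕ) (ha : (3 : ℕ) ^ a ∣ n + 1) (he : 1 ≤ e) (hea : e ≤ a)
    (hm : (3 : ℤ) ^ e ∣ m - 1) : (3 : ℤ) ^ (a + e) ∣ 3 * N m n := by
  have h1 := compare m n a e ha he hm
  have h2 : (3 : ℤ) ^ (a + e) ∣ 3 * N 1 n :=
    (pow_dvd_pow 3 (by omega)).trans (case_one n a ha)
  have := dvd_add h1 h2
  rwa [sub_add_cancel] at this

/-! ### The statement -/

/-- the `3`-adic valuation of a rational, with `ν_3(0) = +∞` -/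
noncomputable def nu3 (x : ℚ) : WithTop ℤ := if x = 0 then ⊤ else ((padicValRat 3 x : ℤ) : WithTop ℤ)

/-- `S_m(n) = ∑_{0 ≤ k < n} (-1)^k C(n-1,k) C(2k,k) m^{-k}` -/
def S (m : ℤ) (n : ℕ) : ℚ :=
  ∑ k ∈ range n, (-1) ^ k * ((n - 1).choose k : ℚ) * ((2 * k).choose k : ℚ) / (m : ℚ) ^ k

lemma S_eq (m : ℤ) (hm : m ≠ 0) (n : ℕ) : S m (n + 1) = (N m n : ℚ) / (m : ℚ) ^ n := by
  have hm' : (m : ℚ) ≠ 0 := by exact_mod_cast hm
  rw [eq_div_iff (pow_ne_zero _ hm')]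
  unfold S N
  rw [sum_mul]
  push_cast
  apply sum_congr rfl
  intro k hk
  have hk' : k ≤ n := by have := mem_range.mp hk; omega
  have e : (m : ℚ) ^ n = (m : ℚ) ^ (n - k) * (m : ℚ) ^ k := by rw [← pow_add]; congr 1; omega
  rw [e]
  field_simp

/-- **Q1 is true**: `ν_3(S_m(n)/n) ≥ min(ν_3(n), ν_3(m-1)) - 1` for all `m ≡ 1 (mod 3)`, `n ≥ 1`. -/
theorem result (m : ℤ) (hm : m ≡ 1 [ZMOD 3]) (n : ℕ) (hn : 1 ≤ n) :
    min (nu3 (n : ℚ)) (nu3 ((m : ℚ) - 1)) ≤ nu3 (S m n / n) + 1 := by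
  obtain ⟨n, rfl⟩ : ∃ k, n = k + 1 := ⟨n - 1, by omega⟩
  have : Fact (Nat.Prime 3) := ⟨Nat.prime_three⟩
  have hm3 : (3 : ℤ) ∣ m - 1 := (Int.modEq_iff_dvd.mp hm.symm)
  have hm0 : m ≠ 0 := by rintro rfl; omega
  have hmQ : (m : ℚ) ≠ 0 := by exact_mod_cast hm0
  have hnQ : ((n + 1 : ℕ) : ℚ) ≠ 0 := by positivity
  rw [S_eq m hm0]
  by_cases hN : N m n = 0
  · rw [hN]
    simp [nu3]
  have hNQ : (N m n : ℚ) ≠ 0 := by exact_mod_cast hN
  set a := padicValNat 3 (n + 1) with ha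
  have ha3 : 3 ^ a ∣ n + 1 := pow_padicValNat_dvd
  -- the valuation of the quotient
  have hvm : padicValInt 3 m = 0 := padicValInt.eq_zero_of_not_dvd (by push_cast; omega)
  have hq : nu3 ((N m n : ℚ) / (m : ℚ) ^ n / ((n + 1 : ℕ) : ℚ))
      = (((padicValInt 3 (N m n) : ℤ) - (a : ℤ) : ℤ) : WithTop ℤ) := by
    unfold nu3
    rw [if_neg (div_ne_zero (div_ne_zero hNQ (pow_ne_zero _ hmQ)) hnQ)]
    rw [padicValRat.div (div_ne_zero hNQ (pow_ne_zero _ hmQ)) hnQ,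
      padicValRat.div hNQ (pow_ne_zero _ hmQ), padicValRat.pow, padicValRat.of_int,
      padicValRat.of_int, padicValRat.of_nat, hvm]
    simp [ha]
  rw [hq]
  have hnu : nu3 ((n + 1 : ℕ) : ℚ) = ((a : ℤ) : WithTop ℤ) := by
    unfold nu3
    rw [if_neg hnQ, padicValRat.of_nat]
  rw [hnu]
  -- the key inequality
  have key : ∀ e : ℕ, e ≤ a → (3 : ℤ) ^ e ∣ m - 1 → (a : ℤ) + e ≤ padicValInt 3 (N m n) + 1 := by
    intro e hea he
    rcases Nat.eq_zero_or_pos a with h0 | hapos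
    · have : e = 0 := by omega
      subst this
      rw [h0]
      push_cast
      positivity
    · have main' : ∀ e : ℕ, 1 ≤ e → e ≤ a → (3 : ℤ) ^ e ∣ m - 1 →
          (a : ℤ) + e ≤ padicValInt 3 (N m n) + 1 := by
        intro e he1 hea he
        have h := main m n a e ha3 he1 hea he
        have h2 : ((3 : ℕ) : ℤ) ^ (a + e) ∣ 3 * N m n := by exact_mod_cast h
        rw [padicValInt_dvd_iff] at h2
        rcases h2 with h2 | h2
        · exact absurd h2 (mul_ne_zero (by norm_num) hN)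
        · rw [padicValInt.mul (by norm_num) hN] at h2
          have h3 : padicValInt 3 3 = 1 := by
            have := padicValInt_self (p := 3)
            exact_mod_cast this
          rw [h3] at h2
          have h4 : ((a + e : ℕ) : ℤ) ≤ ((1 + padicValInt 3 (N m n) : ℕ) : ℤ) := by exact_mod_cast h2
          push_cast at h4
          linarith
      rcases Nat.eq_zero_or_pos e with rfl | hepos
      · have := main' 1 (le_refl _) (by omega) (by simpa using hm3)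
        push_cast at this ⊢
        linarith
      · exact main' e hepos hea he
  by_cases h1 : m = 1
  · have e1 : nu3 ((m : ℚ) - 1) = ⊤ := by
      unfold nu3; rw [if_pos (by rw [h1]; norm_num)]
    rw [e1, min_eq_left le_top]
    have := key a (le_refl _) (by rw [h1]; simp)
    have h5 : ((a : ℤ) : WithTop ℤ) ≤ (((padicValInt 3 (N m n) : ℤ) - (a : ℤ) + 1 : ℤ) : WithTop ℤ) := by
      exact WithTop.coe_le_coe.mpr (by linarith)
    simpa using h5
  · have hm1 : m - 1 ≠ 0 := sub_ne_zero.mpr h1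
    have e1 : nu3 ((m : ℚ) - 1) = ((padicValInt 3 (m - 1) : ℤ) : WithTop ℤ) := by
      have hcast : ((m : ℚ) - 1) = ((m - 1 : ℤ) : ℚ) := by push_cast; ring
      unfold nu3
      rw [hcast, if_neg (by exact_mod_cast hm1), padicValRat.of_int]
    rw [e1]
    rcases le_total a (padicValInt 3 (m - 1)) with hle | hle
    · have hd : (3 : ℤ) ^ a ∣ m - 1 := by
        have := (padicValInt_dvd_iff (p := 3) a (m - 1)).mpr (Or.inr hle)
        exact_mod_cast this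
      have := key a (le_refl _) hd
      have h5 : ((a : ℤ) : WithTop ℤ) ≤ (((padicValInt 3 (N m n) : ℤ) - (a : ℤ) + 1 : ℤ) : WithTop ℤ) :=
        WithTop.coe_le_coe.mpr (by linarith)
      exact (min_le_left _ _).trans (by simpa using h5)
    · have hd : (3 : ℤ) ^ (padicValInt 3 (m - 1)) ∣ m - 1 := by
        have := (padicValInt_dvd_iff (p := 3) (padicValInt 3 (m - 1)) (m - 1)).mpr (Or.inr le_rfl)
        exact_mod_cast this
      have := key _ hle hd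
      have h5 : ((padicValInt 3 (m - 1) : ℤ) : WithTop ℤ)
          ≤ (((padicValInt 3 (N m n) : ℤ) - (a : ℤ) + 1 : ℤ) : WithTop ℤ) :=
        WithTop.coe_le_coe.mpr (by linarith)
      exact (min_le_right _ _).trans (by simpa using h5)

end Pool.Agent.Results.MP_7f2dba_nt.ValuationBound
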